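import Pool.Agent.Lib_helper68.MC.Defs

/-! Project MC (MP_b08f5f_an), block TR: transfer between `z ∈ Reg N η` and `nrm z`. -/

set_option autoImplicit false

namespace Pool.Agent.Lib_helper68.MC

open MeasureTheory Filter Topology Set
open scoped ComplexConjugate ENNReal NNReal
open Pool.Agent.Lib_helper25.PV (Conf vel Motion centre inertia NC VFlow)
open Pool.Agent.Lib_helper12.HE (ham rad nrm Gam sig shell turn one LimAvg)

noncomputable section

theorem TR_mono {N : ℕ} {η η' : ℝ} (h : η ≤ η') : Reg N η ⊆ Reg N η' := by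
  rintro z ⟨h1, h2, h3⟩
  exact ⟨h1.trans h, h2, h3.trans_le (by linarith)⟩

theorem TR_centre {N : ℕ} (hN : 1 ≤ N) (z : Conf N) : ∑ i, (z i - centre z) = 0 := by
  have hN0 : (N : ℂ) ≠ 0 := by
    have : N ≠ 0 := by omega
    exact_mod_cast this
  rw [Finset.sum_sub_distrib]
  simp only [Finset.sum_const, Finset.card_univ, Fintype.card_fin, nsmul_eq_mul, centre]
  field_simp
  simp

/-- Steiner's theorem -/
theorem TR_steiner {N : ℕ} (hN : 1 ≤ N) (z : Conf N) :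
    (∑ i, ‖z i‖ ^ 2) / N = ‖centre z‖ ^ 2 + rad z ^ 2 := by
  have hN0 : (0 : ℝ) < N := by exact_mod_cast hN
  have h1 : rad z ^ 2 = (∑ i, ‖z i - centre z‖ ^ 2) / N := by
    unfold rad
    exact Real.sq_sqrt (by positivity)
  have h4 : ∀ i, ‖z i‖ ^ 2 = ‖z i - centre z‖ ^ 2 +
      2 * ((z i - centre z) * conj (centre z)).re + ‖centre z‖ ^ 2 := by
    intro i
    simp only [← Complex.normSq_eq_norm_sq, Complex.normSq_apply, Complex.mul_re,
      Complex.sub_re, Complex.sub_im, Complex.conj_re, Complex.conj_im]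
    ring
  have h5 : ∑ i, ((z i - centre z) * conj (centre z)).re = 0 := by
    rw [← Complex.re_sum, ← Finset.sum_mul, TR_centre hN z]
    simp
  have h3 : ∑ i, ‖z i‖ ^ 2 = ∑ i, ‖z i - centre z‖ ^ 2 + N * ‖centre z‖ ^ 2 := by
    rw [Finset.sum_congr rfl fun i _ => h4 i, Finset.sum_add_distrib, Finset.sum_add_distrib,
      ← Finset.mul_sum, h5]
    simp
  rw [h3, h1, add_div, mul_div_cancel_left₀ _ hN0.ne']
  ring

theorem TR_mom {N : ℕ} (hN : 1 ≤ N) {η : ℝ} (hη : 0 < η) {z : Conf N} (hz : z ∈ Reg N η) :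
    (∑ i, ‖z i‖ ^ 2) / N ≤ η ^ 2 + (1 + η) ^ 2 := by
  obtain ⟨h1, h2, h3⟩ := hz
  rw [TR_steiner hN z]
  have h4 := norm_nonneg (centre z)
  gcongr

theorem TR_sub {N : ℕ} {z : Conf N} (hr : rad z ≠ 0) (i j : Fin N) :
    z i - z j = (rad z : ℂ) * (nrm z i - nrm z j) := by
  have hr' : (rad z : ℂ) ≠ 0 := by exact_mod_cast hr
  simp only [nrm]
  field_simp
  rw [sub_sub_sub_cancel_right]

theorem TR_eq {N : ℕ} {z : Conf N} (hr : rad z ≠ 0) (i : Fin N) :
    z i = (rad z : ℂ) * nrm z i + centre z := by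
  have hr' : (rad z : ℂ) ≠ 0 := by exact_mod_cast hr
  simp only [nrm]
  field_simp
  ring

theorem TR_hamEq {N : ℕ} (hN : 1 ≤ N) {z : Conf N} (hr : 0 < rad z) (hy : nrm z ∈ Gam N) :
    ham z / (N : ℝ) ^ 2 = ham (nrm z) / (N : ℝ) ^ 2 -
        1 / (4 * Real.pi) * (((N : ℝ) - 1) / N) * Real.log (rad z) := by
  have hN0 : (0 : ℝ) < N := by exact_mod_cast hN
  obtain ⟨hinj, -, -⟩ := hy
  have h1 : ∀ i, ∀ j ∈ Finset.univ.erase i, Real.log ‖z i - z j‖ =
      Real.log (rad z) + Real.log ‖nrm z i - nrm z j‖ := by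
    intro i j hj
    have hne : nrm z i - nrm z j ≠ 0 := sub_ne_zero.mpr
      (fun h => (Finset.ne_of_mem_erase hj) (hinj h).symm)
    rw [TR_sub hr.ne' i j, norm_mul, Real.log_mul _ (norm_ne_zero_iff.mpr hne),
      Complex.norm_real, Real.norm_of_nonneg hr.le]
    rw [Complex.norm_real, Real.norm_of_nonneg hr.le]
    exact hr.ne'
  have h2 : ∑ i, ∑ j ∈ Finset.univ.erase i, Real.log ‖z i - z j‖ =
      N * (N - 1) * Real.log (rad z) +
        ∑ i, ∑ j ∈ Finset.univ.erase i, Real.log ‖nrm z i - nrm z j‖ := by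
    rw [Finset.sum_congr rfl fun i _ => Finset.sum_congr rfl fun j hj => h1 i j hj]
    simp only [Finset.sum_add_distrib, Finset.sum_const, Finset.card_univ, Fintype.card_fin,
      Finset.card_erase_of_mem (Finset.mem_univ _), nsmul_eq_mul]
    rw [Nat.cast_sub hN]
    push_cast
    ring
  unfold ham
  rw [h2]
  field_simp
  ring

theorem TR_ham {N : ℕ} (hN : 1 ≤ N) {η : ℝ} (hη : 0 < η) {z : Conf N} (hz : z ∈ Reg N η)
    (hy : nrm z ∈ Gam N) :
    ham (nrm z) / (N : ℝ) ^ 2 - η ≤ ham z / (N : ℝ) ^ 2 ∧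
      ham z / (N : ℝ) ^ 2 = ham (nrm z) / (N : ℝ) ^ 2 -
        1 / (4 * Real.pi) * (((N : ℝ) - 1) / N) * Real.log (rad z) := by
  obtain ⟨h1, h2, h3⟩ := hz
  have hr : 0 < rad z := by linarith
  have hN0 : (0 : ℝ) < N := by exact_mod_cast hN
  have hN1 : (1 : ℝ) ≤ N := by exact_mod_cast hN
  have h := TR_hamEq hN hr hy
  refine ⟨?_, h⟩
  rw [h]
  have h4 : Real.log (rad z) ≤ η := by
    have := Real.log_le_sub_one_of_pos hr
    linarith
  have h5 : 0 ≤ Real.log (rad z) := Real.log_nonneg h2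
  have h6 : ((N : ℝ) - 1) / N ≤ 1 := by
    rw [div_le_one hN0]
    linarith
  have h6' : 0 ≤ ((N : ℝ) - 1) / N := div_nonneg (by linarith) hN0.le
  have h7 : 1 / (4 * Real.pi) ≤ 1 := by
    rw [div_le_one (by positivity)]
    linarith [Real.pi_gt_three]
  have h8 : 1 / (4 * Real.pi) * (((N : ℝ) - 1) / N) * Real.log (rad z) ≤ 1 * 1 * η := by
    gcongr
  linarith

theorem TR_gamMom {N : ℕ} {y : Conf N} (hy : y ∈ Gam N) : (∑ i, ‖y i‖ ^ 2) / (N : ℝ) = 1 :=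
  hy.2.2

theorem TR_gamAbs {N : ℕ} (hN : 1 ≤ N) {y : Conf N} (hy : y ∈ Gam N) : ∑ i, ‖y i‖ ≤ N := by
  have hN0 : (0 : ℝ) < N := by exact_mod_cast hN
  have h1 := hy.2.2
  have h2 : ∑ i, ‖y i‖ ^ 2 = N := by
    field_simp at h1
    exact h1
  have h3 : ∑ i, ‖y i‖ ≤ ∑ i, (‖y i‖ ^ 2 + 1) / 2 := by
    refine Finset.sum_le_sum fun i _ => ?_
    nlinarith [sq_nonneg (‖y i‖ - 1)]
  refine h3.trans (le_of_eq ?_)
  rw [← Finset.sum_div, Finset.sum_add_distrib, h2]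
  simp

theorem TR_dist {N : ℕ} {η : ℝ} {z : Conf N} (hz : z ∈ Reg N η) (i : Fin N) :
    ‖z i - nrm z i‖ ≤ η * (‖nrm z i‖ + 1) := by
  obtain ⟨h1, h2, h3⟩ := hz
  have hr : 0 < rad z := by linarith
  have h4 : z i - nrm z i = ((rad z - 1 : ℝ) : ℂ) * nrm z i + centre z := by
    have h := TR_eq hr.ne' i
    push_cast
    linear_combination h
  rw [h4]
  refine (norm_add_le _ _).trans ?_
  rw [norm_mul, Complex.norm_real, Real.norm_of_nonneg (by linarith)]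
  have h5 := norm_nonneg (nrm z i)
  have h6 : (rad z - 1) * ‖nrm z i‖ ≤ η * ‖nrm z i‖ :=
    mul_le_mul_of_nonneg_right (by linarith) h5
  linarith

/-- a continuous function with compact support, compared at two points -/
theorem TR_unif {f : ℂ → ℝ} (hf : Continuous f) (hfc : HasCompactSupport f) {κ : ℝ}
    (hκ : 0 < κ) : ∃ C > 0, ∀ x y : ℂ, |f x - f y| ≤ κ + C * ‖x - y‖ ^ 2 := by
  obtain ⟨B, hB⟩ := hf.bounded_above_of_compact_support hfc
  have hB0 : 0 ≤ B := (norm_nonneg _).trans (hB 0)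
  have hu := hfc.uniformContinuous_of_continuous hf
  obtain ⟨δ, hδ, h⟩ := Metric.uniformContinuous_iff.mp hu κ hκ
  refine ⟨(2 * B + 1) / δ ^ 2, by positivity, fun x y => ?_⟩
  by_cases hxy : dist x y < δ
  · have h1 := h hxy
    rw [Real.dist_eq] at h1
    have h2 : 0 ≤ (2 * B + 1) / δ ^ 2 * ‖x - y‖ ^ 2 := by positivity
    linarith
  · rw [not_lt, dist_eq_norm] at hxy
    have h1 : |f x - f y| ≤ 2 * B := by
      refine (abs_sub _ _).trans ?_
      have := hB x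
      have := hB y
      rw [Real.norm_eq_abs] at *
      linarith
    have h2 : 1 ≤ ‖x - y‖ ^ 2 / δ ^ 2 := by
      rw [le_div_iff₀ (by positivity), one_mul]
      gcongr
    have h3 : (2 * B + 1) * 1 ≤ (2 * B + 1) * (‖x - y‖ ^ 2 / δ ^ 2) := by gcongr
    have h4 : (2 * B + 1) / δ ^ 2 * ‖x - y‖ ^ 2 = (2 * B + 1) * (‖x - y‖ ^ 2 / δ ^ 2) := by ring
    rw [h4]
    linarith

theorem TR_sq {N : ℕ} (hN : 1 ≤ N) {η : ℝ} (hη : 0 ≤ η) {z : Conf N} (hz : z ∈ Reg N η)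
    (hy : nrm z ∈ Gam N) : ∑ i, ‖z i - nrm z i‖ ^ 2 ≤ 4 * η ^ 2 * N := by
  have hN0 : (0 : ℝ) < N := by exact_mod_cast hN
  have h2 : ∑ i, ‖nrm z i‖ ^ 2 = N := by
    have h1 := hy.2.2
    field_simp at h1
    exact h1
  have h3 : ∀ i, ‖z i - nrm z i‖ ^ 2 ≤ η ^ 2 * (2 * (‖nrm z i‖ ^ 2 + 1)) := by
    intro i
    have h4 := TR_dist hz i
    have h5 := norm_nonneg (nrm z i)
    calc ‖z i - nrm z i‖ ^ 2 ≤ (η * (‖nrm z i‖ + 1)) ^ 2 := by gcongr
      _ = η ^ 2 * (‖nrm z i‖ + 1) ^ 2 := by ring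
      _ ≤ η ^ 2 * (2 * (‖nrm z i‖ ^ 2 + 1)) := by
          gcongr
          nlinarith [sq_nonneg (‖nrm z i‖ - 1)]
  refine (Finset.sum_le_sum fun i _ => h3 i).trans (le_of_eq ?_)
  rw [← Finset.mul_sum, ← Finset.mul_sum, Finset.sum_add_distrib, h2]
  simp only [Finset.sum_const, Finset.card_univ, Fintype.card_fin, nsmul_eq_mul, mul_one]
  ring

theorem TR_test {f : ℂ → ℝ} (hf : Continuous f) (hfc : HasCompactSupport f) {κ : ℝ}
    (hκ : 0 < κ) : ∃ η₀ > 0, ∀ N : ℕ, 1 ≤ N → ∀ z : Conf N, z ∈ Reg N η₀ → nrm z ∈ Gam N →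
      |(∑ i, f (z i)) / N - (∑ i, f (nrm z i)) / N| ≤ κ := by
  obtain ⟨C, hC, h⟩ := TR_unif hf hfc (half_pos hκ)
  refine ⟨Real.sqrt (κ / (8 * C)), Real.sqrt_pos.mpr (by positivity), fun N hN z hz hy => ?_⟩
  have hN0 : (0 : ℝ) < N := by exact_mod_cast hN
  have h1 := TR_sq hN (Real.sqrt_nonneg _) hz hy
  rw [Real.sq_sqrt (by positivity)] at h1
  rw [← sub_div, abs_div, abs_of_pos hN0, div_le_iff₀ hN0, ← Finset.sum_sub_distrib]
  refine (Finset.abs_sum_le_sum_abs _ _).trans ?_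
  refine (Finset.sum_le_sum fun i _ => h (z i) (nrm z i)).trans ?_
  rw [Finset.sum_add_distrib, ← Finset.mul_sum]
  simp only [Finset.sum_const, Finset.card_univ, Fintype.card_fin, nsmul_eq_mul]
  have h2 : C * ∑ i, ‖z i - nrm z i‖ ^ 2 ≤ C * (4 * (κ / (8 * C)) * N) := by gcongr
  have h3 : C * (4 * (κ / (8 * C)) * N) = κ / 2 * N := by
    field_simp
    ring
  rw [h3] at h2
  linarith

theorem TR_logmax {r : ℝ} (hr : 0 < r) (a b : ℝ) :
    |Real.log (max a r) - Real.log (max b r)| ≤ r⁻¹ * |a - b| := by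
  have key : ∀ a b : ℝ, Real.log (max a r) - Real.log (max b r) ≤ r⁻¹ * |a - b| := by
    intro a b
    have ha : 0 < max a r := lt_max_of_lt_right hr
    have hb : 0 < max b r := lt_max_of_lt_right hr
    have h1 : Real.log (max a r) - Real.log (max b r) = Real.log (max a r / max b r) :=
      (Real.log_div ha.ne' hb.ne').symm
    rw [h1]
    have h2 := Real.log_le_sub_one_of_pos (div_pos ha hb)
    refine h2.trans ?_
    have h3 : max a r / max b r - 1 = (max b r)⁻¹ * (max a r - max b r) := by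
      field_simp
    rw [h3]
    have h4 : max a r - max b r ≤ |a - b| := (le_abs_self _).trans (abs_max_sub_max_le_abs a b r)
    have h5 : (max b r)⁻¹ ≤ r⁻¹ := by
      gcongr
      exact le_max_right _ _
    calc (max b r)⁻¹ * (max a r - max b r) ≤ (max b r)⁻¹ * |a - b| := by gcongr
      _ ≤ r⁻¹ * |a - b| := by gcongr
  rw [abs_le]
  constructor
  · have h1 := key b a
    rw [abs_sub_comm] at h1
    linarith
  · exact key a b

theorem TR_kerLip {r : ℝ} (hr : 0 < r) (x y : ℂ) :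
    |ker r x - ker r y| ≤ r⁻¹ * ‖x - y‖ := by
  have h1 : ker r x - ker r y =
      -(1 / (4 * Real.pi)) * (Real.log (max ‖x‖ r) - Real.log (max ‖y‖ r)) := by
    unfold ker
    ring
  rw [h1, abs_mul, abs_neg, abs_of_nonneg (by positivity : (0 : ℝ) ≤ 1 / (4 * Real.pi))]
  have h2 := TR_logmax hr ‖x‖ ‖y‖
  have h3 : |‖x‖ - ‖y‖| ≤ ‖x - y‖ := abs_norm_sub_norm_le x y
  have h4 : 1 / (4 * Real.pi) ≤ 1 := by
    rw [div_le_one (by positivity)]
    linarith [Real.pi_gt_three]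
  calc 1 / (4 * Real.pi) * |Real.log (max ‖x‖ r) - Real.log (max ‖y‖ r)|
      ≤ 1 * (r⁻¹ * ‖x - y‖) := by
        gcongr
        exact h2.trans (by gcongr)
    _ = r⁻¹ * ‖x - y‖ := one_mul _

theorem TR_ker {r : ℝ} (hr : 0 < r) {κ : ℝ} (hκ : 0 < κ) : ∃ η₀ > 0, ∀ N : ℕ, 1 ≤ N →
    ∀ z : Conf N, z ∈ Reg N η₀ → nrm z ∈ Gam N →
      |(∑ i, ∑ j, ker r (z i - z j)) / (N : ℝ) ^ 2 -
        (∑ i, ∑ j, ker r (nrm z i - nrm z j)) / (N : ℝ) ^ 2| ≤ κ := by
  refine ⟨r * κ / 2, by positivity, fun N hN z hz hy => ?_⟩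
  have hN0 : (0 : ℝ) < N := by exact_mod_cast hN
  have hr0 : 0 < rad z := by linarith [hz.2.1]
  rw [← sub_div, abs_div, abs_of_pos (by positivity : (0 : ℝ) < (N : ℝ) ^ 2),
    div_le_iff₀ (by positivity), ← Finset.sum_sub_distrib]
  have h1 : ∀ i j, |ker r (z i - z j) - ker r (nrm z i - nrm z j)| ≤
      κ / 2 * (‖nrm z i‖ + ‖nrm z j‖) := by
    intro i j
    refine (TR_kerLip hr _ _).trans ?_
    have h2 : z i - z j - (nrm z i - nrm z j) =
        ((rad z - 1 : ℝ) : ℂ) * (nrm z i - nrm z j) := by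
      rw [TR_sub hr0.ne' i j]
      push_cast
      ring
    rw [h2, norm_mul, Complex.norm_real, Real.norm_of_nonneg (by linarith [hz.2.1])]
    have h3 : ‖nrm z i - nrm z j‖ ≤ ‖nrm z i‖ + ‖nrm z j‖ := norm_sub_le _ _
    have h4 : rad z - 1 ≤ r * κ / 2 := by linarith [hz.2.2]
    have h5 : 0 ≤ rad z - 1 := by linarith [hz.2.1]
    calc r⁻¹ * ((rad z - 1) * ‖nrm z i - nrm z j‖)
        ≤ r⁻¹ * ((r * κ / 2) * (‖nrm z i‖ + ‖nrm z j‖)) := by gcongr
      _ = κ / 2 * (‖nrm z i‖ + ‖nrm z j‖) := by field_simp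
  calc |∑ i, (∑ j, ker r (z i - z j) - ∑ j, ker r (nrm z i - nrm z j))|
      ≤ ∑ i, ∑ j, κ / 2 * (‖nrm z i‖ + ‖nrm z j‖) := by
        refine (Finset.abs_sum_le_sum_abs _ _).trans (Finset.sum_le_sum fun i _ => ?_)
        rw [← Finset.sum_sub_distrib]
        exact (Finset.abs_sum_le_sum_abs _ _).trans (Finset.sum_le_sum fun j _ => h1 i j)
    _ = κ / 2 * (2 * N * ∑ i, ‖nrm z i‖) := by
        simp only [← Finset.mul_sum, Finset.sum_add_distrib, Finset.sum_const,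
          Finset.card_univ, Fintype.card_fin, nsmul_eq_mul]
        ring
    _ ≤ κ / 2 * (2 * N * N) := by
        gcongr
        exact TR_gamAbs hN hy
    _ = κ * (N : ℝ) ^ 2 := by ring

end

end Pool.Agent.Lib_helper68.MC
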